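import Pool.Agent.L7h38.UC.Stm

/-!
# Project UC: rules for `EW`
-/

set_option autoImplicit false

namespace Pool.Agent.L7h87.UC

open Finset Pool.Agent.L7h38.UC

variable {d : ℕ}

theorem EW_mono {μ : Equiv.Perm (Fin d) → ℝ} (hμ : ∀ σ, 0 ≤ μ σ) (N : ℕ)
    {g h : List (Equiv.Perm (Fin d)) → ℝ} (H : ∀ w, g w ≤ h w) : EW μ N g ≤ EW μ N h := by
  induction N generalizing g h with
  | zero => exact H _
  | succ N ih =>
    simp only [EW]
    exact sum_le_sum fun σ _ => mul_le_mul_of_nonneg_left (ih fun w => H _) (hμ σ)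

theorem EW_lin (μ : Equiv.Perm (Fin d) → ℝ) (N : ℕ) (x y : ℝ)
    (g h : List (Equiv.Perm (Fin d)) → ℝ) :
    EW μ N (fun w => x * g w + y * h w) = x * EW μ N g + y * EW μ N h := by
  induction N generalizing g h with
  | zero => rfl
  | succ N ih =>
    simp only [EW]
    rw [mul_sum, mul_sum, ← sum_add_distrib]
    refine sum_congr rfl fun σ _ => ?_
    rw [ih]
    ring

theorem EW_smul (μ : Equiv.Perm (Fin d) → ℝ) (N : ℕ) (x : ℝ)
    (g : List (Equiv.Perm (Fin d)) → ℝ) : EW μ N (fun w => x * g w) = x * EW μ N g := by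
  have h := EW_lin μ N x 0 g g
  simp only [zero_mul, add_zero] at h
  exact h

theorem EW_const {μ : Equiv.Perm (Fin d) → ℝ} (hμ : Pr μ) (N : ℕ) (x : ℝ) :
    EW μ N (fun _ => x) = x := by
  induction N with
  | zero => rfl
  | succ N ih => simp only [EW, ih, ← sum_mul, hμ.2, one_mul]

theorem EW_append (μ : Equiv.Perm (Fin d) → ℝ) (M N : ℕ)
    (g : List (Equiv.Perm (Fin d)) → ℝ) :
    EW μ (M + N) g = EW μ M fun v => EW μ N fun w => g (v ++ w) := by
  induction M generalizing g with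
  | zero => simp [EW]
  | succ M ih =>
    rw [Nat.succ_add]
    simp only [EW, List.cons_append]
    exact sum_congr rfl fun σ _ => by rw [ih]

theorem EW_abs {μ : Equiv.Perm (Fin d) → ℝ} (hμ : Pr μ) (N : ℕ) {x : ℝ}
    {g : List (Equiv.Perm (Fin d)) → ℝ} (H : ∀ w, |g w| ≤ x) : |EW μ N g| ≤ x := by
  rw [abs_le]
  constructor
  · rw [← EW_const hμ N (-x)]
    exact EW_mono hμ.1 N fun w => (abs_le.1 (H w)).1
  · calc EW μ N g ≤ EW μ N (fun _ => x) := EW_mono hμ.1 N fun w => (abs_le.1 (H w)).2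
      _ = x := EW_const hμ N x

end Pool.Agent.L7h87.UC
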