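import Pool.Agent.L7h87.UC.Rep
import Pool.Agent.L7h87.UC.Ew

/-!
# Project UC, part BRI: the chain on states and the averages over labelled configurations
-/

set_option autoImplicit false

namespace Pool.Agent.L7h87.UC

open Finset Pool.Agent.L7h38.UC

variable {d n : ℕ}

/-- transport of a choice of positions to a choice of balls -/
def tr {A : St d n} (e : ∀ i : Fin d, Fin n ≃ Balls A i) (S : Fin d → Finset (Fin n)) :
    ∀ i : Fin d, Finset (Balls A i) := fun i => (S i).map (e i).toEmbedding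

theorem tr_inj {A : St d n} (e : ∀ i : Fin d, Fin n ≃ Balls A i) :
    Function.Injective (tr e) := by
  intro S S' h
  funext i
  exact map_injective _ (congrFun h i)

theorem tr_mem {A : St d n} (e : ∀ i : Fin d, Fin n ≃ Balls A i) (k : ℕ)
    (S : Fin d → Finset (Fin n)) : tr e S ∈ choices k A ↔ S ∈ Ch d n k := by
  simp only [choices, Ch, Fintype.mem_piFinset, mem_powersetCard, subset_univ, true_and, tr,
    card_map]

theorem choices_eq {A : St d n} (e : ∀ i : Fin d, Fin n ≃ Balls A i) (k : ℕ) :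
    choices k A = (Ch d n k).map ⟨tr e, tr_inj e⟩ := by
  ext T
  rw [mem_map]
  constructor
  · intro hT
    have h : tr e (fun i => (T i).map (e i).symm.toEmbedding) = T := by
      funext i
      simp only [tr, map_map]
      have : (e i).symm.toEmbedding.trans (e i).toEmbedding = Function.Embedding.refl _ :=
        Function.Embedding.ext fun x => (e i).apply_symm_apply x
      rw [this, map_refl]
    refine ⟨fun i => (T i).map (e i).symm.toEmbedding, ?_, h⟩
    rw [← tr_mem e, h]
    exact hT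
  · rintro ⟨S, hS, rfl⟩
    exact (tr_mem e k S).2 hS

theorem number_tr {A : St d n} (e : ∀ i : Fin d, Fin n ≃ Balls A i) (S : Fin d → Finset (Fin n))
    (i j : Fin d) : (number (tr e S i) j : ℤ) = mf (cfg e i) (S i) j := by
  simp only [number, mf, tr]
  congr 1
  rw [filter_map, card_map]
  rfl

theorem number_le {A : St d n} {i : Fin d} (S : Finset (Balls A i)) (j : Fin d) :
    number S j ≤ (A.1 i j : ℕ) := by
  rw [← card_ball A i j]
  exact card_le_card (filter_subset_filter _ (subset_univ _))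

/-- the relation between two states and a choice -/
def Rl {A : St d n} (σ : Equiv.Perm (Fin d)) (B : St d n) (S : ∀ i : Fin d, Finset (Balls A i)) :
    Prop := ∀ i j, (B.1 i j : ℕ) = (A.1 i j : ℕ) - number (S i) j + number (S (σ⁻¹ i)) j

theorem rl_iff {A : St d n} (e : ∀ i : Fin d, Fin n ≃ Balls A i) (σ : Equiv.Perm (Fin d))
    (B : St d n) (S : Fin d → Finset (Fin n)) :
    Rl σ B (tr e S) ↔ Pool.Agent.L7h38.UC.mt B = nx σ (cfg e) S := by
  unfold Rl
  rw [funext_iff]
  refine forall_congr' fun i => ?_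
  rw [funext_iff]
  refine forall_congr' fun j => ?_
  simp only [nx, cn_cfg, Pool.Agent.L7h38.UC.mt]
  rw [← number_tr e S i j, ← number_tr e S (σ⁻¹ i) j]
  have h := number_le (tr e S i) j
  omega

theorem mt_inj {A B : St d n} (h : Pool.Agent.L7h38.UC.mt A = Pool.Agent.L7h38.UC.mt B) :
    A = B := by
  apply Subtype.ext
  funext i j
  apply Fin.ext
  have := congrFun (congrFun h i) j
  simp only [Pool.Agent.L7h38.UC.mt] at this
  exact_mod_cast this

open Classical in
theorem ring_eq (μ : Equiv.Perm (Fin d) → ℝ) (k : ℕ) (A B : St d n) :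
    ring μ k A B = ∑ σ, μ σ * (∑ S ∈ choices k A, if Rl σ B S then (1 : ℝ) else 0) /
      (choices k A).card := by
  unfold ring
  refine sum_congr rfl fun σ _ => ?_
  congr 2
  rw [← sum_filter, sum_const, nsmul_eq_mul, mul_one]
  congr 2
  refine filter_congr fun S _ => ?_
  rfl

theorem ring_step (hN : S_NXC) (hI : S_INV) (k : ℕ) (μ : Equiv.Perm (Fin d) → ℝ)
    (F : Mt d → ℝ) (A : St d n) :
    ∑ B, ring μ k A B * F (Pool.Agent.L7h38.UC.mt B) =
      ∑ σ, μ σ * PM n k σ F (Pool.Agent.L7h38.UC.mt A) := by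
  classical
  obtain ⟨e⟩ := exists_enum A
  have hPM : ∀ σ, PM n k σ F (Pool.Agent.L7h38.UC.mt A) = PL k σ F (cfg e) := by
    intro σ
    have hex : ∃ c : Cf d n, cn c = Pool.Agent.L7h38.UC.mt A := ⟨cfg e, cn_cfg e⟩
    unfold PM
    rw [dif_pos hex]
    exact hI d n k σ F _ _ (hex.choose_spec.trans (cn_cfg e).symm)
  have hcard : (choices k A).card = (Ch d n k).card := by rw [choices_eq e, card_map]
  simp only [ring_eq, sum_mul]
  rw [sum_comm]
  refine sum_congr rfl fun σ _ => ?_
  rw [hPM, PL, av, hcard]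
  have h1 : ∀ B : St d n, μ σ * (∑ S ∈ choices k A, if Rl σ B S then (1 : ℝ) else 0) /
      ((Ch d n k).card : ℝ) * F (Pool.Agent.L7h38.UC.mt B) =
      μ σ / ((Ch d n k).card : ℝ) * ∑ S ∈ Ch d n k,
        if Pool.Agent.L7h38.UC.mt B = nx σ (cfg e) S then F (Pool.Agent.L7h38.UC.mt B) else 0 := by
    intro B
    have h2 : (∑ S ∈ choices k A, if Rl σ B S then (1 : ℝ) else 0) *
        F (Pool.Agent.L7h38.UC.mt B) = ∑ S ∈ Ch d n k,
        if Pool.Agent.L7h38.UC.mt B = nx σ (cfg e) S then F (Pool.Agent.L7h38.UC.mt B) else 0 := by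
      rw [choices_eq e, sum_map, sum_mul]
      refine sum_congr rfl fun S _ => ?_
      have h3 := rl_iff e σ B S
      simp only [Function.Embedding.coeFn_mk]
      by_cases h4 : Rl σ B (tr e S)
      · rw [if_pos h4, if_pos (h3.1 h4), one_mul]
      · rw [if_neg h4, if_neg (fun h => h4 (h3.2 h)), zero_mul]
    rw [← h2]
    ring
  rw [sum_congr rfl fun B _ => h1 B, ← mul_sum, sum_comm]
  have h5 : ∀ S ∈ Ch d n k, (∑ B : St d n,
      if Pool.Agent.L7h38.UC.mt B = nx σ (cfg e) S then F (Pool.Agent.L7h38.UC.mt B) else 0) =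
      F (nx σ (cfg e) S) := by
    intro S hS
    obtain ⟨c', hc', hb⟩ := hN d n k σ (cfg e) S hS
    obtain ⟨B0, hB0⟩ := (s_REP d n).2 c' (hb (bal_cfg e))
    have hB1 : Pool.Agent.L7h38.UC.mt B0 = nx σ (cfg e) S := hB0.trans hc'
    rw [sum_eq_single B0]
    · rw [if_pos hB1, hB1]
    · intro B _ hne
      rw [if_neg]
      intro h
      exact hne (mt_inj (h.trans hB1.symm))
    · intro h
      exact absurd (mem_univ _) h
  rw [sum_congr rfl h5]
  ring

theorem PM_finsum {ι : Type} (k : ℕ) (σ : Equiv.Perm (Fin d)) (s : Finset ι) (x : ι → ℝ)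
    (F : ι → Mt d → ℝ) (A : Mt d) :
    PM n k σ (fun B => ∑ i ∈ s, x i * F i B) A = ∑ i ∈ s, x i * PM n k σ (F i) A := by
  unfold PM
  split_ifs with h
  · simp only [PL, av]
    rw [sum_comm, sum_div]
    refine sum_congr rfl fun i _ => ?_
    rw [← mul_sum, mul_div_assoc]
  · simp

theorem PM_EW (μ : Equiv.Perm (Fin d) → ℝ) (k N : ℕ) (σ : Equiv.Perm (Fin d))
    (G : List (Equiv.Perm (Fin d)) → Mt d → ℝ) (A : Mt d) :
    PM n k σ (fun B => EW μ N fun w => G w B) A = EW μ N fun w => PM n k σ (G w) A := by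
  induction N generalizing G with
  | zero => rfl
  | succ N ih =>
    simp only [EW]
    rw [PM_finsum]
    exact sum_congr rfl fun τ _ => by rw [ih]

theorem s_BRI (hI : S_INV) (hN : S_NXC) : S_BRI := by
  intro d n k μ N F A
  induction N generalizing A with
  | zero =>
    simp only [pow_zero, Matrix.one_apply, ite_mul, one_mul, zero_mul, sum_ite_eq, mem_univ,
      if_true]
    rfl
  | succ N ih =>
    calc ∑ B, (Matrix.of (ring μ k) ^ (N + 1)) A B * F (Pool.Agent.L7h38.UC.mt B)
        = ∑ C, ring μ k A C * ∑ B, (Matrix.of (ring μ k) ^ N) C B *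
            F (Pool.Agent.L7h38.UC.mt B) := by
          simp only [pow_succ', Matrix.mul_apply, Matrix.of_apply, sum_mul, mul_sum]
          rw [sum_comm]
          exact sum_congr rfl fun C _ => sum_congr rfl fun B _ => by ring
      _ = ∑ C, ring μ k A C * PN μ n k N F (Pool.Agent.L7h38.UC.mt C) :=
          sum_congr rfl fun C _ => by rw [ih]
      _ = ∑ σ, μ σ * PM n k σ (PN μ n k N F) (Pool.Agent.L7h38.UC.mt A) :=
          ring_step hN hI k μ (PN μ n k N F) A
      _ = PN μ n k (N + 1) F (Pool.Agent.L7h38.UC.mt A) := by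
          refine sum_congr rfl fun σ _ => ?_
          have h := PM_EW (n := n) μ k N σ (fun w => PW n k w F) (Pool.Agent.L7h38.UC.mt A)
          exact congrArg (fun y => μ σ * y) h

end Pool.Agent.L7h87.UC
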