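import Pool.Agent.L7h38.UC.Stm

/-!
# Project UC, part FWB: rules for `fw`
-/

set_option autoImplicit false

namespace Pool.Agent.L7h87.UC

open Finset Pool.Agent.L7h38.UC

variable {d : ℕ}

/-- vectors of the entries -/
noncomputable def toE (B : Fin d → Fin d → ℝ) : EuclideanSpace ℝ (Fin d × Fin d) :=
  WithLp.toLp 2 fun p => B p.1 p.2

/-- Frobenius norm -/
noncomputable def Nm (B : Fin d → Fin d → ℝ) : ℝ := Real.sqrt (nf2 B)

theorem nf2_nonneg (B : Fin d → Fin d → ℝ) : 0 ≤ nf2 B :=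
  sum_nonneg fun _ _ => sum_nonneg fun _ _ => sq_nonneg _

theorem Nm_eq (B : Fin d → Fin d → ℝ) : Nm B = ‖toE B‖ := by
  rw [Nm, EuclideanSpace.norm_eq]
  congr 1
  simp only [nf2, toE, Real.norm_eq_abs, sq_abs, Fintype.sum_prod_type]

theorem Nm_nonneg (B : Fin d → Fin d → ℝ) : 0 ≤ Nm B := Real.sqrt_nonneg _

theorem Nm_sq (B : Fin d → Fin d → ℝ) : Nm B ^ 2 = nf2 B := Real.sq_sqrt (nf2_nonneg B)

theorem Nm_add (A B : Fin d → Fin d → ℝ) : Nm (fun i j => A i j + B i j) ≤ Nm A + Nm B := by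
  rw [Nm_eq, Nm_eq, Nm_eq]
  have h : toE (fun i j => A i j + B i j) = toE A + toE B := by
    ext p; simp [toE]
  rw [h]
  exact norm_add_le _ _

theorem Nm_smul (x : ℝ) (B : Fin d → Fin d → ℝ) : Nm (fun i j => x * B i j) = |x| * Nm B := by
  rw [Nm_eq, Nm_eq]
  have h : toE (fun i j => x * B i j) = x • toE B := by
    ext p; simp [toE]
  rw [h, norm_smul, Real.norm_eq_abs]

theorem nf2_perm (σ : Equiv.Perm (Fin d)) (B : Fin d → Fin d → ℝ) :
    nf2 (fun i j => B (σ⁻¹ i) j) = nf2 B := by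
  unfold nf2
  exact Equiv.sum_comp σ⁻¹ fun i => ∑ j, B i j ^ 2

theorem Nm_perm (σ : Equiv.Perm (Fin d)) (B : Fin d → Fin d → ℝ) :
    Nm (fun i j => B (σ⁻¹ i) j) = Nm B := by
  rw [Nm, nf2_perm, Nm]

theorem Nm_ms {l : ℝ} (h0 : 0 ≤ l) (h1 : l ≤ 1) (σ : Equiv.Perm (Fin d)) (B : Fin d → Fin d → ℝ) :
    Nm (ms l σ B) ≤ Nm B := by
  have h := Nm_add (fun i j => (1 - l) * B i j) (fun i j => l * B (σ⁻¹ i) j)
  rw [Nm_smul (1 - l) B, Nm_smul l (fun i j => B (σ⁻¹ i) j), Nm_perm,
    abs_of_nonneg h0, abs_of_nonneg (sub_nonneg.2 h1)] at h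
  calc Nm (ms l σ B) ≤ (1 - l) * Nm B + l * Nm B := h
    _ = Nm B := by ring

theorem Nm_mw {l : ℝ} (h0 : 0 ≤ l) (h1 : l ≤ 1) (w : List (Equiv.Perm (Fin d)))
    (B : Fin d → Fin d → ℝ) : Nm (mw l w B) ≤ Nm B := by
  induction w generalizing B with
  | nil => exact le_refl _
  | cons σ w ih => exact (ih (ms l σ B)).trans (Nm_ms h0 h1 σ B)

theorem nf2_le_of_Nm {A B : Fin d → Fin d → ℝ} (h : Nm A ≤ Nm B) : nf2 A ≤ nf2 B := by
  rw [← Nm_sq, ← Nm_sq]
  exact pow_le_pow_left₀ (Nm_nonneg A) h 2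

/-- linearity -/
theorem ms_lin (l x y : ℝ) (σ : Equiv.Perm (Fin d)) (A B : Fin d → Fin d → ℝ) :
    ms l σ (fun i j => x * A i j + y * B i j) = fun i j => x * ms l σ A i j + y * ms l σ B i j := by
  funext i j; simp only [ms]; ring

theorem mw_lin (l x y : ℝ) (w : List (Equiv.Perm (Fin d))) (A B : Fin d → Fin d → ℝ) :
    mw l w (fun i j => x * A i j + y * B i j) = fun i j => x * mw l w A i j + y * mw l w B i j := by
  induction w generalizing A B with
  | nil => rfl
  | cons σ w ih =>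
    simp only [mw]
    rw [ms_lin, ih]

theorem mw_sub (l : ℝ) (w : List (Equiv.Perm (Fin d))) (A B : Fin d → Fin d → ℝ) :
    mw l w (fun i j => A i j - B i j) = fun i j => mw l w A i j - mw l w B i j := by
  have h := mw_lin l 1 (-1) w A B
  simp only [one_mul, neg_one_mul, ← sub_eq_add_neg] at h
  exact h

theorem mw_smul (l x : ℝ) (w : List (Equiv.Perm (Fin d))) (A : Fin d → Fin d → ℝ) :
    mw l w (fun i j => x * A i j) = fun i j => x * mw l w A i j := by
  have h := mw_lin l x 0 w A A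
  simp only [zero_mul, add_zero] at h
  exact h

theorem mw_const (l x : ℝ) (w : List (Equiv.Perm (Fin d))) :
    mw l w (fun _ _ => x) = fun _ _ => x := by
  induction w with
  | nil => rfl
  | cons σ w ih =>
    simp only [mw]
    have h : ms l σ (fun _ _ => x) = fun _ _ => x := by
      funext i j; simp only [ms]; ring
    rw [h, ih]

/-- compatibility with the multiplication from the right -/
theorem mw_mul (l : ℝ) (w : List (Equiv.Perm (Fin d))) (A X : Fin d → Fin d → ℝ) :
    mw l w (fun i j => ∑ k, A i k * X k j) = fun i j => ∑ k, mw l w A i k * X k j := by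
  induction w generalizing A with
  | nil => rfl
  | cons σ w ih =>
    simp only [mw]
    have h : ms l σ (fun i j => ∑ k, A i k * X k j) = fun i j => ∑ k, ms l σ A i k * X k j := by
      funext i j
      simp only [ms, mul_sum, ← sum_add_distrib]
      refine sum_congr rfl fun k _ => ?_
      ring
    rw [h, ih]

theorem mw_append (l : ℝ) (v w : List (Equiv.Perm (Fin d))) (B : Fin d → Fin d → ℝ) :
    mw l (v ++ w) B = mw l w (mw l v B) := by
  induction v generalizing B with
  | nil => rfl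
  | cons σ v ih => simp only [List.cons_append, mw]; exact ih _

theorem col_ms (l : ℝ) (σ : Equiv.Perm (Fin d)) (B : Fin d → Fin d → ℝ) (j : Fin d) :
    ∑ i, ms l σ B i j = ∑ i, B i j := by
  simp only [ms, sum_add_distrib, ← mul_sum]
  rw [Equiv.sum_comp σ⁻¹ fun i => B i j]
  ring

theorem col_mw (l : ℝ) (w : List (Equiv.Perm (Fin d))) (B : Fin d → Fin d → ℝ) (j : Fin d) :
    ∑ i, mw l w B i j = ∑ i, B i j := by
  induction w generalizing B with
  | nil => rfl
  | cons σ w ih => simp only [mw]; rw [ih, col_ms]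

theorem Pi0_mul (X : Fin d → Fin d → ℝ) (i j : Fin d) :
    ∑ k, Pi0 d i k * X k j = X i j - (∑ k, X k j) / d := by
  simp only [Pi0, sub_mul, sum_sub_distrib, ite_mul, one_mul, zero_mul, sum_ite_eq, mem_univ,
    if_true, ← mul_sum]
  ring

theorem col_Pi0 (hd : 1 ≤ d) (j : Fin d) : ∑ i, Pi0 d i j = 0 := by
  have h : (d : ℝ) ≠ 0 := by positivity
  simp only [Pi0, sum_sub_distrib, sum_ite_eq', mem_univ, if_true, sum_const, card_univ,
    Fintype.card_fin, nsmul_eq_mul]
  field_simp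
  ring

/-- Cauchy-Schwarz -/
theorem nf2_mul (A X : Fin d → Fin d → ℝ) :
    nf2 (fun i j => ∑ k, A i k * X k j) ≤ nf2 A * nf2 X := by
  calc nf2 (fun i j => ∑ k, A i k * X k j)
      ≤ ∑ i, ∑ j, (∑ k, A i k ^ 2) * ∑ k, X k j ^ 2 :=
        sum_le_sum fun i _ => sum_le_sum fun j _ => sum_mul_sq_le_sq_mul_sq _ _ _
    _ = nf2 A * nf2 X := by
        simp only [← mul_sum]
        rw [← sum_mul]
        congr 1
        unfold nf2
        exact sum_comm

theorem fw_sq (l : ℝ) (w : List (Equiv.Perm (Fin d))) : fw l w ^ 2 = nf2 (mw l w (Pi0 d)) :=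
  Real.sq_sqrt (nf2_nonneg _)

theorem fw_nonneg (l : ℝ) (w : List (Equiv.Perm (Fin d))) : 0 ≤ fw l w := Real.sqrt_nonneg _

theorem fw_append (hd : 1 ≤ d) (l : ℝ) (v w : List (Equiv.Perm (Fin d))) :
    fw l (v ++ w) ≤ fw l v * fw l w := by
  have h0 : ∀ j, ∑ k, mw l v (Pi0 d) k j = 0 := fun j => by rw [col_mw, col_Pi0 hd]
  have h1 : mw l v (Pi0 d) = fun i j => ∑ k, Pi0 d i k * mw l v (Pi0 d) k j := by
    funext i j
    rw [Pi0_mul, h0, zero_div, sub_zero]
  have h2 : mw l (v ++ w) (Pi0 d) = fun i j => ∑ k, mw l w (Pi0 d) i k * mw l v (Pi0 d) k j := by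
    rw [mw_append]
    conv_lhs => rw [h1]
    rw [mw_mul]
  have h3 : fw l (v ++ w) ^ 2 ≤ (fw l v * fw l w) ^ 2 := by
    rw [mul_pow, fw_sq, fw_sq, fw_sq, h2, mul_comm (nf2 (mw l v (Pi0 d)))]
    exact nf2_mul _ _
  exact le_of_sq_le_sq h3 (mul_nonneg (fw_nonneg l v) (fw_nonneg l w))

theorem row_cn {n : ℕ} (c : Cf d n) (i : Fin d) : ∑ j, rl (cn c) i j = n := by
  simp only [rl, cn, Int.cast_natCast]
  rw [← Nat.cast_sum]
  congr 1
  have h := Finset.card_eq_sum_card_fiberwise (s := (univ : Finset (Fin n))) (t := univ)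
    (f := c i) (fun _ _ => mem_coe.2 (mem_univ _))
  rw [card_univ, Fintype.card_fin] at h
  exact h.symm

theorem cn_le {n : ℕ} (c : Cf d n) (i j : Fin d) : rl (cn c) i j ≤ n := by
  simp only [rl, cn]
  have h : (univ.filter fun p => c i p = j).card ≤ n := by
    have := card_filter_le (univ : Finset (Fin n)) fun p => c i p = j
    rwa [card_univ, Fintype.card_fin] at this
  push_cast
  exact_mod_cast h

theorem cn_nonneg {n : ℕ} (c : Cf d n) (i j : Fin d) : 0 ≤ rl (cn c) i j := by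
  simp only [rl, cn]
  positivity

theorem nf2_cn (hd : 1 ≤ d) {n : ℕ} (c : Cf d n) : nf2 (rl (cn c)) ≤ (d * n : ℝ) ^ 2 := by
  have h1 : nf2 (rl (cn c)) ≤ ∑ i : Fin d, ∑ j : Fin d, (n : ℝ) * rl (cn c) i j := by
    refine sum_le_sum fun i _ => sum_le_sum fun j _ => ?_
    rw [sq]
    exact mul_le_mul_of_nonneg_right (cn_le c i j) (cn_nonneg c i j)
  have h2 : ∑ i : Fin d, ∑ j : Fin d, (n : ℝ) * rl (cn c) i j = d * n ^ 2 := by
    simp only [← mul_sum, row_cn, sum_const, card_univ, Fintype.card_fin, nsmul_eq_mul]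
    ring
  rw [h2] at h1
  refine h1.trans ?_
  have h3 : (1 : ℝ) ≤ d := by exact_mod_cast hd
  have h4 : (0 : ℝ) ≤ (n : ℝ) ^ 2 := sq_nonneg _
  nlinarith [mul_nonneg (mul_nonneg (sub_nonneg.2 h3) (zero_le_one.trans h3)) h4]

theorem s_FWB : S_FWB := by
  intro d hd
  refine ⟨fun l h0 h1 w B => nf2_le_of_Nm (Nm_mw h0 h1 w B), fun l _ _ v w => fw_append hd l v w,
    ?_, ?_, ?_⟩
  · intro l h0 h1 n w c hc
    have hcol : ∀ j, ∑ i, rl (cn c) i j = n := by
      intro j
      have := hc j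
      simp only [rl]
      exact_mod_cast this
    have h2 : (fun i j => mw l w (rl (cn c)) i j - (n : ℝ) / d) =
        fun i j => ∑ k, mw l w (Pi0 d) i k * rl (cn c) k j := by
      have h3 : (fun i j => ∑ k, Pi0 d i k * rl (cn c) k j) = fun i j => rl (cn c) i j - (n : ℝ) / d := by
        funext i j; rw [Pi0_mul, hcol]
      rw [← mw_mul, h3, mw_sub, mw_const]
    rw [h2, fw_sq]
    exact (nf2_mul _ _).trans (mul_le_mul_of_nonneg_left (nf2_cn hd c) (nf2_nonneg _))
  · intro l x w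
    have h2 : (fun i j => mw l w (fun i j => if i = j then x else 0) i j - x / d) =
        fun i j => x * mw l w (Pi0 d) i j := by
      have h3 : (fun i j : Fin d => x * Pi0 d i j) = fun i j => (if i = j then x else 0) - x / d := by
        funext i j; simp only [Pi0]; split_ifs <;> ring
      rw [← mw_smul, h3, mw_sub, mw_const]
    rw [h2, fw_sq]
    simp only [nf2, mul_pow, ← mul_sum]
  · intro l l' h0 h1 h0' h1' w
    have key : ∀ (w : List (Equiv.Perm (Fin d))) (B B' : Fin d → Fin d → ℝ),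
        Nm (fun i j => mw l w B i j - mw l' w B' i j) ≤
          Nm (fun i j => B i j - B' i j) + 2 * w.length * |l - l'| * Nm B' := by
      intro w
      induction w with
      | nil => intro B B'; simp [mw]
      | cons σ w ih =>
        intro B B'
        simp only [mw]
        refine (ih (ms l σ B) (ms l' σ B')).trans ?_
        have a1 : Nm (fun i j => ms l σ B i j - ms l' σ B' i j) ≤
            Nm (fun i j => B i j - B' i j) + 2 * |l - l'| * Nm B' := by
          have e1 : (fun i j => ms l σ B i j - ms l' σ B' i j) = fun i j =>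
              ms l σ (fun i j => B i j - B' i j) i j + (l - l') * (B' (σ⁻¹ i) j + -1 * B' i j) := by
            funext i j; simp only [ms]; ring
          rw [e1]
          refine (Nm_add _ _).trans (add_le_add (Nm_ms h0 h1 σ _) ?_)
          rw [Nm_smul]
          have e2 := Nm_add (fun i j => B' (σ⁻¹ i) j) (fun i j => -1 * B' i j)
          rw [Nm_perm, Nm_smul, abs_neg, abs_one, one_mul] at e2
          calc |l - l'| * Nm (fun i j => B' (σ⁻¹ i) j + -1 * B' i j)
              ≤ |l - l'| * (Nm B' + Nm B') := mul_le_mul_of_nonneg_left e2 (abs_nonneg _)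
            _ = 2 * |l - l'| * Nm B' := by ring
        have a2 : Nm (ms l' σ B') ≤ Nm B' := Nm_ms h0' h1' σ B'
        have a3 : 2 * (w.length : ℝ) * |l - l'| * Nm (ms l' σ B') ≤
            2 * (w.length : ℝ) * |l - l'| * Nm B' :=
          mul_le_mul_of_nonneg_left a2 (by positivity)
        simp only [List.length_cons, Nat.cast_add, Nat.cast_one]
        calc _ ≤ (Nm (fun i j => B i j - B' i j) + 2 * |l - l'| * Nm B') +
              2 * (w.length : ℝ) * |l - l'| * Nm B' := add_le_add a1 a3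
          _ = _ := by ring
    have h2 := key w (Pi0 d) (Pi0 d)
    have h3 : Nm (fun i j => Pi0 d i j - Pi0 d i j) = 0 := by
      simp only [sub_self, Nm, nf2]
      simp
    have h4 : Nm (Pi0 d) ≤ d := by
      have h5 : nf2 (Pi0 d) ≤ (d : ℝ) ^ 2 := by
        calc nf2 (Pi0 d) ≤ ∑ _i : Fin d, ∑ _j : Fin d, (1 : ℝ) := by
              refine sum_le_sum fun i _ => sum_le_sum fun j _ => ?_
              have hd1 : (1 : ℝ) ≤ d := by exact_mod_cast hd
              have h6 : 0 ≤ 1 / (d : ℝ) := by positivity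
              have h7 : 1 / (d : ℝ) ≤ 1 := by rw [div_le_one (by positivity)]; exact hd1
              simp only [Pi0]
              split_ifs <;> nlinarith
          _ = (d : ℝ) ^ 2 := by simp [sq]
      calc Nm (Pi0 d) ≤ Real.sqrt ((d : ℝ) ^ 2) := Real.sqrt_le_sqrt h5
        _ = d := Real.sqrt_sq (Nat.cast_nonneg d)
    rw [h3, zero_add] at h2
    have h8 : |fw l w - fw l' w| ≤ Nm (fun i j => mw l w (Pi0 d) i j - mw l' w (Pi0 d) i j) := by
      have e : fw l w = ‖toE (mw l w (Pi0 d))‖ := by rw [← Nm_eq]; rfl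
      have e' : fw l' w = ‖toE (mw l' w (Pi0 d))‖ := by rw [← Nm_eq]; rfl
      rw [e, e', Nm_eq]
      have e3 : toE (fun i j => mw l w (Pi0 d) i j - mw l' w (Pi0 d) i j) =
          toE (mw l w (Pi0 d)) - toE (mw l' w (Pi0 d)) := by
        ext p; simp [toE]
      rw [e3]
      exact abs_norm_sub_norm_le _ _
    calc |fw l w - fw l' w| ≤ 2 * w.length * |l - l'| * Nm (Pi0 d) := h8.trans h2
      _ ≤ 2 * w.length * |l - l'| * d := mul_le_mul_of_nonneg_left h4 (by positivity)
      _ = 2 * d * w.length * |l - l'| := by ring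

end Pool.Agent.L7h87.UC
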