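import Pool.Agent.L7h38.UC.Stm2
import Pool.Agent.L7h87.UC.Ew

/-!
# Project UC, part PNR: rules for `PN`
-/

set_option autoImplicit false

namespace Pool.Agent.L7h87.UC

open Finset Pool.Agent.L7h38.UC

variable {d : ℕ}

theorem PW_finsum (hB : S_PWB) (n k : ℕ) {ι : Type} (s : Finset ι) (w : List (Equiv.Perm (Fin d)))
    (x : ι → ℝ) (F : ι → Mt d → ℝ) (A : Mt d) :
    PW n k w (fun B => ∑ i ∈ s, x i * F i B) A = ∑ i ∈ s, x i * PW n k w (F i) A := by
  classical
  induction s using Finset.induction_on with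
  | empty =>
    simp only [sum_empty]
    have h := hB.2.1 d n k w (fun _ => 0) (fun _ => 0) 0 0 A
    simp only [zero_mul, add_zero, mul_zero] at h
    exact h
  | insert a s ha ih =>
    simp only [sum_insert ha]
    have h := hB.2.1 d n k w (F a) (fun B => ∑ i ∈ s, x i * F i B) (x a) 1 A
    simp only [one_mul] at h
    rw [h, ih]

/-- exchange of `PW` and `EW` -/
theorem PW_EW (hB : S_PWB) (μ : Equiv.Perm (Fin d) → ℝ) (n k N : ℕ)
    (v : List (Equiv.Perm (Fin d))) (G : List (Equiv.Perm (Fin d)) → Mt d → ℝ) (A : Mt d) :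
    PW n k v (fun B => EW μ N fun w => G w B) A = EW μ N fun w => PW n k v (G w) A := by
  induction N generalizing G with
  | zero => rfl
  | succ N ih =>
    simp only [EW]
    rw [PW_finsum hB]
    exact sum_congr rfl fun σ _ => by rw [ih]

theorem s_PNR (hB : S_PWB) : S_PNR := by
  have hadd : ∀ (d n k : ℕ) (μ : Equiv.Perm (Fin d) → ℝ) (M N : ℕ) (F : Mt d → ℝ) (A : Mt d),
      PN μ n k (M + N) F A = PN μ n k M (PN μ n k N F) A := by
    intro d n k μ M N F A
    unfold PN
    rw [EW_append]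
    congr 1
    funext v
    rw [PW_EW hB]
    congr 1
    funext w
    exact hB.2.2.2.2 d n k v w F A
  have hbd : ∀ (d n k : ℕ) (μ : Equiv.Perm (Fin d) → ℝ), Pr μ → ∀ (N : ℕ) (F : Mt d → ℝ) (x : ℝ),
      (∀ A, |F A| ≤ x) → ∀ A, |PN μ n k N F A| ≤ x := by
    intro d n k μ hμ N F x hF A
    exact EW_abs hμ N fun w => hB.2.2.2.1 d n k w F x hF A
  refine ⟨hadd, ?_, ?_, ?_, hbd, ?_⟩
  · intro d n k μ hμ hk N F G H c hc
    exact EW_mono hμ.1 N fun w => hB.1 d n k hk w F G H c hc
  · intro d n k μ N F G x y A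
    unfold PN
    rw [← EW_lin]
    congr 1
    funext w
    exact hB.2.1 d n k w F G x y A
  · intro d n k μ hμ hk N x c
    unfold PN
    calc EW μ N (fun w => PW n k w (fun _ => x) (cn c)) = EW μ N fun _ => x := by
          congr 1
          funext w
          exact hB.2.2.1 d n k hk w x c
      _ = x := EW_const hμ N x
  · intro d n k μ hμ M N η hM hMN F hF c c' hc hc'
    obtain ⟨j, rfl⟩ := Nat.exists_eq_add_of_le hMN
    rw [hadd d n k μ M j F, hadd d n k μ M j F]
    exact hM (PN μ n k j F) (hbd d n k μ hμ j F 1 hF) c c' hc hc'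

end Pool.Agent.L7h87.UC
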