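import Pool.Agent.L7h38.UC.Stm2

/-!
# Project UC, part REP: states and balanced configurations
-/

set_option autoImplicit false

namespace Pool.Agent.L7h87.UC

open Finset Pool.Agent.L7h38.UC

variable {d n : ℕ}

/-- enumerations of the balls -/
theorem exists_enum (A : St d n) : Nonempty (∀ i : Fin d, Fin n ≃ Balls A i) := by
  refine ⟨fun i => ?_⟩
  have h : Fintype.card (Fin n) = Fintype.card (Balls A i) := by
    rw [Fintype.card_fin, Fintype.card_sigma]
    simp only [Fintype.card_fin]
    exact (A.2.1 i).symm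
  exact Fintype.equivOfCardEq h

theorem card_ball (A : St d n) (i j : Fin d) :
    (univ.filter fun x : Balls A i => x.1 = j).card = (A.1 i j : ℕ) := by
  rw [card_filter, Fintype.sum_sigma]
  have h : ∀ x : Fin d, (∑ y : Fin (A.1 i x : ℕ),
      if (⟨x, y⟩ : Balls A i).1 = j then 1 else 0) = if x = j then (A.1 i x : ℕ) else 0 := by
    intro x
    by_cases hx : x = j
    · simp [hx]
    · simp [hx]
  rw [sum_congr rfl fun x _ => h x, sum_ite_eq']
  simp

/-- the configuration of an enumeration -/
def cfg {A : St d n} (e : ∀ i : Fin d, Fin n ≃ Balls A i) : Cf d n := fun i p => (e i p).1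

theorem card_cfg {A : St d n} (e : ∀ i : Fin d, Fin n ≃ Balls A i) (i j : Fin d) :
    (univ.filter fun p : Fin n => cfg e i p = j).card = (A.1 i j : ℕ) := by
  rw [← card_ball A i j]
  refine card_bij (fun p _ => e i p) (fun p hp => ?_) (fun p _ p' _ h => (e i).injective h)
    (fun x hx => ⟨(e i).symm x, ?_, (e i).apply_symm_apply x⟩)
  · have h := (mem_filter.1 hp).2
    exact mem_filter.2 ⟨mem_univ _, h⟩
  · have h := (mem_filter.1 hx).2
    refine mem_filter.2 ⟨mem_univ _, ?_⟩
    simp only [cfg, Equiv.apply_symm_apply]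
    exact h

theorem cn_cfg {A : St d n} (e : ∀ i : Fin d, Fin n ≃ Balls A i) : cn (cfg e) = Pool.Agent.L7h38.UC.mt A := by
  funext i j
  simp only [cn, Pool.Agent.L7h38.UC.mt]
  rw [card_cfg]

theorem bal_cfg {A : St d n} (e : ∀ i : Fin d, Fin n ≃ Balls A i) : Bal (cfg e) := by
  intro j
  rw [cn_cfg]
  simp only [Pool.Agent.L7h38.UC.mt]
  exact_mod_cast A.2.2 j

theorem s_REP : S_REP := by
  intro d n
  refine ⟨fun A => ?_, fun c hc => ?_⟩
  · obtain ⟨e⟩ := exists_enum A
    exact ⟨cfg e, bal_cfg e, cn_cfg e⟩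
  · have hlt : ∀ i j, (univ.filter fun p : Fin n => c i p = j).card < n + 1 := by
      intro i j
      have h := card_filter_le (univ : Finset (Fin n)) fun p => c i p = j
      rw [card_univ, Fintype.card_fin] at h
      omega
    refine ⟨⟨fun i j => ⟨(univ.filter fun p : Fin n => c i p = j).card, hlt i j⟩, fun i => ?_,
      fun j => ?_⟩, ?_⟩
    · have h := Finset.card_eq_sum_card_fiberwise (s := (univ : Finset (Fin n))) (t := univ)
        (f := c i) (fun _ _ => mem_coe.2 (mem_univ _))
      rw [card_univ, Fintype.card_fin] at h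
      exact h.symm
    · have h := hc j
      simp only [cn] at h
      exact_mod_cast h
    · rfl

end Pool.Agent.L7h87.UC
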