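import Pool.Agent.L7h87.UC.Fwb
import Pool.Agent.L7h87.UC.Ew

/-!
# Project UC, part SQF: contraction in mean square
-/

set_option autoImplicit false

namespace Pool.Agent.L7h87.UC

open Finset Pool.Agent.L7h38.UC

variable {d : ℕ}

theorem nf2_ms (l : ℝ) (σ : Equiv.Perm (Fin d)) (B : Fin d → Fin d → ℝ) :
    nf2 (ms l σ B) = nf2 B - l * (1 - l) * nf2 (fun i j => B i j - B (σ⁻¹ i) j) := by
  have h := nf2_perm σ B
  have h1 : nf2 (ms l σ B) = (1 - l) * nf2 B + l * nf2 (fun i j => B (σ⁻¹ i) j) -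
      l * (1 - l) * nf2 (fun i j => B i j - B (σ⁻¹ i) j) := by
    simp only [nf2, ms, mul_sum, ← sum_add_distrib, ← sum_sub_distrib]
    refine sum_congr rfl fun i _ => sum_congr rfl fun j _ => ?_
    ring
  rw [h1, h]
  ring

/-- the Dirichlet form -/
noncomputable def Dir (μ : Equiv.Perm (Fin d) → ℝ) (B : Fin d → Fin d → ℝ) : ℝ :=
  ∑ σ, μ σ * nf2 (fun i j => B i j - B (σ⁻¹ i) j)

theorem Dir_smul (μ : Equiv.Perm (Fin d) → ℝ) (x : ℝ) (B : Fin d → Fin d → ℝ) :
    Dir μ (fun i j => x * B i j) = x ^ 2 * Dir μ B := by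
  simp only [Dir, nf2, ← mul_sub, mul_pow, ← mul_sum]
  rw [mul_sum]
  exact sum_congr rfl fun σ _ => by ring

theorem nf2_smul (x : ℝ) (B : Fin d → Fin d → ℝ) :
    nf2 (fun i j => x * B i j) = x ^ 2 * nf2 B := by
  simp only [nf2, mul_pow, ← mul_sum]

theorem nf2_eq_zero {B : Fin d → Fin d → ℝ} (h : nf2 B = 0) (i j : Fin d) : B i j = 0 := by
  have h1 := (sum_eq_zero_iff_of_nonneg fun i _ => sum_nonneg fun j _ => sq_nonneg (B i j)).1 h i
    (mem_univ i)
  have h2 := (sum_eq_zero_iff_of_nonneg fun j _ => sq_nonneg (B i j)).1 h1 j (mem_univ j)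
  exact pow_eq_zero_iff (two_ne_zero) |>.1 h2

theorem Dir_pos {μ : Equiv.Perm (Fin d) → ℝ} (hμ : Pr μ) (hi : Irr μ) (hd : 1 ≤ d)
    {B : Fin d → Fin d → ℝ} (hB : ∀ j, ∑ i, B i j = 0) (h1 : nf2 B ≠ 0) : 0 < Dir μ B := by
  have h0 : 0 ≤ Dir μ B := sum_nonneg fun σ _ => mul_nonneg (hμ.1 σ) (nf2_nonneg _)
  refine lt_of_le_of_ne h0 fun he => h1 ?_
  have h2 := (sum_eq_zero_iff_of_nonneg fun σ _ => mul_nonneg (hμ.1 σ) (nf2_nonneg _)).1 he.symm
  have step : ∀ x y j, (∃ σ : Equiv.Perm (Fin d), 0 < μ σ ∧ σ x = y) → B x j = B y j := by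
    rintro x y j ⟨σ, hσ, rfl⟩
    have h3 := h2 σ (mem_univ σ)
    have h4 : nf2 (fun i j => B i j - B (σ⁻¹ i) j) = 0 := by
      rcases mul_eq_zero.1 h3 with h | h
      · exact absurd h hσ.ne'
      · exact h
    have h5 := nf2_eq_zero h4 (σ x) j
    have h6 : σ⁻¹ (σ x) = x := by simp
    simp only [h6] at h5
    linarith
  have hcon : ∀ x y j, B x j = B y j := by
    intro x y j
    have := hi x y
    induction this with
    | refl => rfl
    | tail _ hs ih => exact ih.trans (step _ _ j hs)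
  have hz : ∀ i j, B i j = 0 := by
    intro i j
    have h6 : ∑ x, B x j = d * B i j := by
      rw [sum_congr rfl fun x _ => hcon x i j]
      simp
    rw [hB j] at h6
    have hd' : (d : ℝ) ≠ 0 := by positivity
    exact (mul_eq_zero.1 h6.symm).resolve_left hd'
  simp [nf2, hz]

theorem exists_gap {μ : Equiv.Perm (Fin d) → ℝ} (hμ : Pr μ) (hi : Irr μ) (hd : 1 ≤ d) :
    ∃ g : ℝ, 0 < g ∧ ∀ B : Fin d → Fin d → ℝ, (∀ j, ∑ i, B i j = 0) → g * nf2 B ≤ Dir μ B := by
  let K : Set (Fin d → Fin d → ℝ) := {B | nf2 B = 1 ∧ ∀ j, ∑ i, B i j = 0}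
  have hcn : Continuous fun B : Fin d → Fin d → ℝ => nf2 B := by
    unfold nf2; fun_prop
  have hcD : Continuous fun B : Fin d → Fin d → ℝ => Dir μ B := by
    unfold Dir nf2; fun_prop
  have hK : IsCompact K := by
    refine Metric.isCompact_of_isClosed_isBounded ?_ ?_
    · have e : K = (fun B : Fin d → Fin d → ℝ => nf2 B) ⁻¹' {1} ∩
          ⋂ j, (fun B : Fin d → Fin d → ℝ => ∑ i, B i j) ⁻¹' {0} := by
        ext B
        simp [K]
      rw [e]
      refine (isClosed_singleton.preimage hcn).inter (isClosed_iInter fun j => ?_)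
      exact isClosed_singleton.preimage (by fun_prop)
    · refine (Metric.isBounded_iff_subset_closedBall 0).2 ⟨1, fun B hB => ?_⟩
      rw [mem_closedBall_zero_iff]
      refine (pi_norm_le_iff_of_nonneg zero_le_one).2 fun i =>
        (pi_norm_le_iff_of_nonneg zero_le_one).2 fun j => ?_
      rw [Real.norm_eq_abs, abs_le_one_iff_mul_self_le_one, ← sq, ← hB.1]
      unfold nf2
      calc B i j ^ 2 ≤ ∑ j, B i j ^ 2 :=
            single_le_sum (f := fun j => B i j ^ 2) (fun j _ => sq_nonneg _) (mem_univ j)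
        _ ≤ _ := single_le_sum (f := fun i => ∑ j, B i j ^ 2)
            (fun i _ => sum_nonneg fun j _ => sq_nonneg _) (mem_univ i)
  obtain ⟨g, hg, H⟩ : ∃ g : ℝ, 0 < g ∧ ∀ B ∈ K, g ≤ Dir μ B := by
    rcases K.eq_empty_or_nonempty with he | hne
    · exact ⟨1, one_pos, fun B hB => by rw [he] at hB; exact absurd hB (Set.notMem_empty _)⟩
    · obtain ⟨B0, hB0, hmin⟩ := hK.exists_isMinOn hne hcD.continuousOn
      refine ⟨Dir μ B0, Dir_pos hμ hi hd hB0.2 (by rw [hB0.1]; exact one_ne_zero), fun B hB => ?_⟩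
      exact hmin hB
  refine ⟨g, hg, fun B hB => ?_⟩
  by_cases h0 : nf2 B = 0
  · rw [h0, mul_zero]
    exact sum_nonneg fun σ _ => mul_nonneg (hμ.1 σ) (nf2_nonneg _)
  · have hp : 0 < nf2 B := lt_of_le_of_ne (nf2_nonneg B) (Ne.symm h0)
    have hN : 0 < Nm B := Real.sqrt_pos.2 hp
    have hm : (fun i j => (Nm B)⁻¹ * B i j) ∈ K := by
      constructor
      · rw [nf2_smul, inv_pow, Nm_sq, inv_mul_cancel₀ h0]
      · intro j
        rw [← mul_sum, hB j, mul_zero]
    have h1 := H _ hm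
    rw [Dir_smul, inv_pow, Nm_sq, inv_mul_eq_div, le_div_iff₀ hp] at h1
    exact h1

theorem s_SQF : S_SQF := by
  intro d μ hd hμ hi c hc
  obtain ⟨g, hg, H⟩ := exists_gap hμ hi hd
  refine ⟨(d : ℝ) ^ 2 + 1, max (1 - c ^ 2 * g) (1 / 2), by positivity,
    lt_of_lt_of_le (by norm_num) (le_max_right _ _), max_lt ?_ (by norm_num), ?_⟩
  · have : 0 < c ^ 2 * g := by positivity
    linarith
  intro l h0 h1 N
  have hl0 : 0 ≤ l := hc.le.trans h0
  have hl1 : l ≤ 1 := by linarith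
  set ρ := max (1 - c ^ 2 * g) (1 / 2) with hρ
  have hρ0 : 0 ≤ ρ := le_trans (by norm_num) (le_max_right _ _)
  have key : ∀ (N : ℕ) (B : Fin d → Fin d → ℝ), (∀ j, ∑ i, B i j = 0) →
      EW μ N (fun w => nf2 (mw l w B)) ≤ ρ ^ N * nf2 B := by
    intro N
    induction N with
    | zero => intro B _; simp [EW, mw]
    | succ N ih =>
      intro B hB
      simp only [EW, mw]
      calc ∑ σ, μ σ * EW μ N (fun w => nf2 (mw l w (ms l σ B)))
          ≤ ∑ σ, μ σ * (ρ ^ N * nf2 (ms l σ B)) := by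
            refine sum_le_sum fun σ _ => mul_le_mul_of_nonneg_left (ih _ fun j => ?_) (hμ.1 σ)
            rw [col_ms, hB]
        _ = ρ ^ N * (nf2 B - l * (1 - l) * Dir μ B) := by
            have e1 : ∀ σ, μ σ * (ρ ^ N * nf2 (ms l σ B)) = ρ ^ N * (μ σ * nf2 B -
                l * (1 - l) * (μ σ * nf2 (fun i j => B i j - B (σ⁻¹ i) j))) := by
              intro σ; rw [nf2_ms]; ring
            rw [sum_congr rfl fun σ _ => e1 σ, ← mul_sum, sum_sub_distrib, ← sum_mul, hμ.2, one_mul,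
              ← mul_sum]
            rfl
        _ ≤ ρ ^ N * (ρ * nf2 B) := by
            refine mul_le_mul_of_nonneg_left ?_ (pow_nonneg hρ0 N)
            have h2 := H B hB
            have h3 : c ^ 2 ≤ l * (1 - l) := by nlinarith
            have h4 : c ^ 2 * (g * nf2 B) ≤ l * (1 - l) * Dir μ B :=
              mul_le_mul h3 h2 (mul_nonneg hg.le (nf2_nonneg B)) (by nlinarith)
            have h5 : (1 - c ^ 2 * g) * nf2 B ≤ ρ * nf2 B :=
              mul_le_mul_of_nonneg_right (le_max_left _ _) (nf2_nonneg B)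
            nlinarith
        _ = ρ ^ (N + 1) * nf2 B := by rw [pow_succ]; ring
  have h6 := key N (Pi0 d) (col_Pi0 hd)
  have h7 : nf2 (Pi0 d) ≤ (d : ℝ) ^ 2 + 1 := by
    have h8 : nf2 (Pi0 d) ≤ (d : ℝ) ^ 2 := by
      calc nf2 (Pi0 d) ≤ ∑ _i : Fin d, ∑ _j : Fin d, (1 : ℝ) := by
            refine sum_le_sum fun i _ => sum_le_sum fun j _ => ?_
            have hd1 : (1 : ℝ) ≤ d := by exact_mod_cast hd
            have h6 : 0 ≤ 1 / (d : ℝ) := by positivity
            have h7 : 1 / (d : ℝ) ≤ 1 := by rw [div_le_one (by positivity)]; exact hd1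
            simp only [Pi0]
            split_ifs <;> nlinarith
        _ = (d : ℝ) ^ 2 := by simp [sq]
    linarith
  simp only [fw_sq]
  calc EW μ N (fun w => nf2 (mw l w (Pi0 d))) ≤ ρ ^ N * nf2 (Pi0 d) := h6
    _ ≤ ρ ^ N * ((d : ℝ) ^ 2 + 1) := mul_le_mul_of_nonneg_left h7 (pow_nonneg hρ0 N)
    _ = ((d : ℝ) ^ 2 + 1) * ρ ^ N := mul_comm _ _

end Pool.Agent.L7h87.UC
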